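import Mathlib

/-!
# Critical reducts and equal identities do not force an isomorphism

Over every field `k` with more than three elements that has a non-square there are
two-dimensional `Ω'`-algebras with isomorphic critical `Ω`-reducts and equal `Ω'`-identities
that are not isomorphic as `Ω'`-algebras.
-/

namespace Pool.Agent.Results.MP_3dda3d_al.CriticalReducts

section Defs

/-- The structure of an `Ω`-algebra on the `k`-module `A`: every `n`-ary symbol acts by a
`k`-multilinear map (a distinguished element if `n = 0`). -/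
abbrev OmegaAlg (k : Type) [CommRing k] (Ω : ℕ → Type) (A : Type) [AddCommGroup A]
    [Module k A] : Type :=
  ∀ n, Ω n → MultilinearMap k (fun _ : Fin n => A) A

/-- Formal `Ω`-monomials in the variables `x_0, x_1, ...`. -/
inductive Mon (Ω : ℕ → Type) : Type
  | var : ℕ → Mon Ω
  | op : (n : ℕ) → Ω n → (Fin n → Mon Ω) → Mon Ω

variable {k : Type} [CommRing k] {Ω : ℕ → Type} {A B : Type} [AddCommGroup A] [Module k A]
  [AddCommGroup B] [Module k B]

/-- The value of a monomial under a substitution. -/
def Mon.eval (a : OmegaAlg k Ω A) (v : ℕ → A) : Mon Ω → A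
  | .var i => v i
  | .op n s args => a n s (fun i => (args i).eval a v)

/-- The set of identities: elements of the free `Ω`-algebra (finitely supported `k`-linear
combinations of `Ω`-monomials) vanishing under every substitution. -/
def Identities (a : OmegaAlg k Ω A) : Set (Mon Ω →₀ k) :=
  {f | ∀ v : ℕ → A, f.sum (fun m c => c • m.eval a v) = 0}

/-- A submodule closed under all operations. -/
def IsSubalgebra (a : OmegaAlg k Ω A) (R : Submodule k A) : Prop :=
  ∀ (n : ℕ) (s : Ω n) (x : Fin n → A), (∀ i, x i ∈ R) → a n s x ∈ R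

/-- `B` is (isomorphic to) a proper section `R/I` of `A`: `R` is a subalgebra of `A` and there
is a surjective homomorphism `φ : R → B` (so that `B ≅ R/I` with `I` the kernel of `φ`), and it
is not the case that `R = A` and `I = 0`. -/
def IsProperSection (a : OmegaAlg k Ω A) (b : OmegaAlg k Ω B) : Prop :=
  ∃ (R : Submodule k A) (hR : IsSubalgebra a R) (φ : R →ₗ[k] B),
    Function.Surjective φ ∧
    (∀ (n : ℕ) (s : Ω n) (x : Fin n → R),
      φ ⟨a n s (fun i => (x i : A)), hR n s _ (fun i => (x i).2)⟩ =
        b n s (fun i => φ (x i))) ∧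
    ¬ (R = ⊤ ∧ Function.Injective φ)

/-- `A` is critical: it does not lie in the variety generated by its proper sections, i.e. some
identity common to all proper sections of `A` is not an identity of `A`. -/
def IsCritical (a : OmegaAlg k Ω A) : Prop :=
  ∃ f : Mon Ω →₀ k, (∀ (B : Type) (_ : AddCommGroup B) (_ : Module k B) (b : OmegaAlg k Ω B),
    IsProperSection a b → f ∈ Identities b) ∧ f ∉ Identities a

/-- Isomorphism of `Ω`-algebras. -/
def Isomorphic (a : OmegaAlg k Ω A) (b : OmegaAlg k Ω B) : Prop :=
  ∃ φ : A ≃ₗ[k] B, ∀ (n : ℕ) (s : Ω n) (x : Fin n → A),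
    φ (a n s x) = b n s (fun i => φ (x i))

/-- The algebra obtained by forgetting the operations outside the subsignature `S`. -/
def reduct (S : ∀ n, Set (Ω n)) (a : OmegaAlg k Ω A) : OmegaAlg k (fun n => S n) A :=
  fun n s => a n s.1

end Defs

section Example

/-- The enlarged signature: one binary and one quaternary symbol. -/
inductive Sig : ℕ → Type
  | mul : Sig 2
  | quad : Sig 4

/-- The subsignature consisting of the binary symbol. -/
def base (n : ℕ) : Set (Sig n) := {_s : Sig n | n = 2}

variable {k : Type} [Field k]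

/-- The `n`-ary operation `(x_1, ..., x_n) ↦ (0, c ∏ (x_i).1)` on `k × k`. -/
def prodOp (c : k) (n : ℕ) : MultilinearMap k (fun _ : Fin n => k × k) (k × k) :=
  (LinearMap.inr k k k).compMultilinearMap
    ((c • MultilinearMap.mkPiAlgebra k (Fin n) k).compLinearMap (fun _ => LinearMap.fst k k k))

theorem prodOp_apply (c : k) (n : ℕ) (x : Fin n → k × k) :
    prodOp c n x = (0, c * ∏ i, (x i).1) := by
  simp [prodOp]

/-- The algebra `k e + k f` with `e e = f`, `[e, e, e, e] = c f`. -/
def alg (c : k) : OmegaAlg k Sig (k × k) :=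
  fun n s => match s with
    | Sig.mul => prodOp 1 2
    | Sig.quad => prodOp c 4

/-- The `e`-coordinate of the value of a monomial. -/
def lead (v : ℕ → k × k) : Mon Sig → k
  | .var i => (v i).1
  | .op _ _ _ => 0

/-- The part of the `f`-coordinate coming from variables. -/
def sPart (v : ℕ → k × k) : Mon Sig → k
  | .var i => (v i).2
  | .op _ _ _ => 0

/-- The part of the `f`-coordinate coming from the binary operation. -/
def pPart (v : ℕ → k × k) : Mon Sig → k
  | .var _ => 0
  | .op _ Sig.mul m => ∏ i, lead v (m i)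
  | .op _ Sig.quad _ => 0

/-- The part of the `f`-coordinate coming from the quaternary operation. -/
def qPart (v : ℕ → k × k) : Mon Sig → k
  | .var _ => 0
  | .op _ Sig.mul _ => 0
  | .op _ Sig.quad m => ∏ i, lead v (m i)

theorem eval_fst (c : k) (v : ℕ → k × k) (m : Mon Sig) : (m.eval (alg c) v).1 = lead v m := by
  cases m with
  | var i => rfl
  | op n s args =>
    cases s <;> simp [Mon.eval, alg, prodOp_apply, lead]

theorem eval_snd (c : k) (v : ℕ → k × k) (m : Mon Sig) :
    (m.eval (alg c) v).2 = sPart v m + pPart v m + c * qPart v m := by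
  cases m with
  | var i => simp [Mon.eval, sPart, pPart, qPart]
  | op n s args =>
    cases s <;> simp [Mon.eval, alg, prodOp_apply, sPart, pPart, qPart, eval_fst]

/-- Linear extension of a function on monomials. -/
noncomputable def ext (g : Mon Sig → k) (f : Mon Sig →₀ k) : k := f.sum (fun m c => c * g m)

theorem sum_fst (c : k) (v : ℕ → k × k) (f : Mon Sig →₀ k) :
    (f.sum (fun m d => d • m.eval (alg c) v)).1 = ext (lead v) f := by
  simp only [ext, Finsupp.sum, Prod.fst_sum, Prod.smul_fst, eval_fst, smul_eq_mul]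

theorem sum_snd (c : k) (v : ℕ → k × k) (f : Mon Sig →₀ k) :
    (f.sum (fun m d => d • m.eval (alg c) v)).2 =
      ext (sPart v) f + ext (pPart v) f + c * ext (qPart v) f := by
  simp only [ext, Finsupp.sum, Prod.snd_sum, Prod.smul_snd, eval_snd, smul_eq_mul]
  rw [Finset.mul_sum, ← Finset.sum_add_distrib, ← Finset.sum_add_distrib]
  refine Finset.sum_congr rfl fun m _ => ?_
  ring

theorem mem_identities_iff (c : k) (f : Mon Sig →₀ k) :
    f ∈ Identities (alg c) ↔ ∀ v : ℕ → k × k, ext (lead v) f = 0 ∧
      ext (sPart v) f + ext (pPart v) f + c * ext (qPart v) f = 0 := by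
  refine forall_congr' fun v => ?_
  rw [Prod.ext_iff, sum_fst, sum_snd]
  rfl

theorem lead_smul (t : k) (v : ℕ → k × k) (m : Mon Sig) :
    lead (fun i => (t * (v i).1, 0)) m = t * lead v m := by
  cases m <;> simp [lead]

theorem sPart_zero (t : k) (v : ℕ → k × k) (m : Mon Sig) :
    sPart (fun i => (t * (v i).1, 0)) m = 0 := by
  cases m <;> simp [sPart]

theorem pPart_smul (t : k) (v : ℕ → k × k) (m : Mon Sig) :
    pPart (fun i => (t * (v i).1, 0)) m = t ^ 2 * pPart v m := by
  cases m with
  | var i => simp [pPart]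
  | op n s args =>
    cases s
    · simp only [pPart, lead_smul, Finset.prod_mul_distrib, Finset.prod_const, Finset.card_univ,
        Fintype.card_fin]
    · simp [pPart]

theorem qPart_smul (t : k) (v : ℕ → k × k) (m : Mon Sig) :
    qPart (fun i => (t * (v i).1, 0)) m = t ^ 4 * qPart v m := by
  cases m with
  | var i => simp [qPart]
  | op n s args =>
    cases s
    · simp [qPart]
    · simp only [qPart, lead_smul, Finset.prod_mul_distrib, Finset.prod_const, Finset.card_univ,
        Fintype.card_fin]

theorem ext_mul (t : k) (g h : Mon Sig → k) (f : Mon Sig →₀ k) (H : ∀ m, g m = t * h m) :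
    ext g f = t * ext h f := by
  simp only [ext, Finsupp.sum, H, Finset.mul_sum]
  refine Finset.sum_congr rfl fun m _ => ?_
  ring

theorem ext_zero (g : Mon Sig → k) (f : Mon Sig →₀ k) (H : ∀ m, g m = 0) : ext g f = 0 := by
  simp [ext, H]

/-- For `c ≠ 0` the identities of the algebra do not depend on `c`. -/
theorem mem_identities_iff' {t : k} (ht0 : t ≠ 0) (ht1 : t ^ 2 ≠ 1) {c : k} (hc : c ≠ 0)
    (f : Mon Sig →₀ k) :
    f ∈ Identities (alg c) ↔ ∀ v : ℕ → k × k, ext (lead v) f = 0 ∧ ext (sPart v) f = 0 ∧
      ext (pPart v) f = 0 ∧ ext (qPart v) f = 0 := by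
  rw [mem_identities_iff]
  constructor
  · intro H v
    have key : ∀ t : k, t ^ 2 * ext (pPart v) f + c * (t ^ 4 * ext (qPart v) f) = 0 := by
      intro t
      have h := (H (fun i => (t * (v i).1, 0))).2
      rw [ext_zero _ f (sPart_zero t v), ext_mul _ _ _ f (pPart_smul t v),
        ext_mul _ _ _ f (qPart_smul t v), zero_add] at h
      exact h
    have h1 := key 1
    have h2 := key t
    simp only [one_pow, one_mul] at h1
    have h3 : (t ^ 2 * (1 - t ^ 2)) * ext (pPart v) f = 0 := by
      linear_combination h2 - t ^ 4 * h1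
    have hp : ext (pPart v) f = 0 := by
      rcases mul_eq_zero.mp h3 with h | h
      · exfalso
        rcases mul_eq_zero.mp h with h | h
        · exact ht0 (pow_eq_zero_iff (two_ne_zero)|>.mp h)
        · exact ht1 (sub_eq_zero.mp h).symm
      · exact h
    have hq : ext (qPart v) f = 0 := by
      rw [hp, zero_add] at h1
      exact (mul_eq_zero.mp h1).resolve_left hc
    refine ⟨(H v).1, ?_, hp, hq⟩
    have := (H v).2
    rw [hp, hq] at this
    simpa using this
  · intro H v
    obtain ⟨h1, h2, h3, h4⟩ := H v
    exact ⟨h1, by rw [h2, h3, h4]; ring⟩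

theorem alg_mul (c : k) (x : Fin 2 → k × k) :
    alg c 2 Sig.mul x = (0, (x 0).1 * (x 1).1) := by
  change prodOp 1 2 x = _
  rw [prodOp_apply]
  simp [Fin.prod_univ_two]

theorem alg_quad (c : k) (x : Fin 4 → k × k) :
    alg c 4 Sig.quad x = (0, c * ∏ i, (x i).1) := by
  change prodOp c 4 x = _
  rw [prodOp_apply]

/-- The monomial `x_0 x_1`. -/
def m01 : Mon (fun n => base n) :=
  Mon.op 2 ⟨Sig.mul, rfl⟩ (fun i => Mon.var i.val)

theorem critical (c : k) : IsCritical (reduct base (alg c)) := by
  refine ⟨Finsupp.single m01 1, ?_, ?_⟩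
  · rintro B _ _ b ⟨R, hR, φ, hsurj, hφ, hne⟩ v
    simp only [Finsupp.sum_single_index, zero_smul, one_smul, m01, Mon.eval]
    choose x hx using hsurj
    have h2 := hφ 2 ⟨Sig.mul, rfl⟩ (fun i => x (v i.val))
    simp only [hx] at h2
    rw [← h2]
    -- it suffices to treat the element `(0, d)`
    have hclosed : ∀ y ∈ R, y.1 ≠ 0 → ∀ d : k, ((0, d) : k × k) ∈ R := by
      intro y hy hy1 d
      have h3 : ((0, y.1 * y.1) : k × k) ∈ R := by
        have := hR 2 ⟨Sig.mul, rfl⟩ (fun _ => y) (fun _ => hy)
        change alg c 2 Sig.mul _ ∈ R at this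
        rwa [alg_mul] at this
      have h4 := R.smul_mem (d / (y.1 * y.1)) h3
      have e : (d / (y.1 * y.1)) • ((0, y.1 * y.1) : k × k) = (0, d) := by
        ext
        · simp
        · simp only [Prod.smul_snd, smul_eq_mul]
          field_simp
      rwa [e] at h4
    by_cases hall : ∀ y ∈ R, y.1 = 0
    · have e : (⟨reduct base (alg c) 2 ⟨Sig.mul, rfl⟩
          (fun i => ((x (v i.val) : R) : k × k)), hR 2 ⟨Sig.mul, rfl⟩ _
          (fun i => (x (v i.val)).2)⟩ : R) = 0 := by
        apply Subtype.ext
        change alg c 2 Sig.mul _ = 0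
        rw [alg_mul, hall _ (x (v _)).2]
        simp
      rw [e, map_zero]
    · push Not at hall
      obtain ⟨y, hy, hy1⟩ := hall
      have hRtop : R = ⊤ := by
        rw [eq_top_iff]
        rintro ⟨p, q⟩ -
        have h5 := R.add_mem (R.smul_mem (p / y.1) hy)
          (hclosed y hy hy1 (q - p / y.1 * y.2))
        have e : (p / y.1) • y + ((0, q - p / y.1 * y.2) : k × k) = (p, q) := by
          ext
          · simp only [Prod.fst_add, Prod.smul_fst, smul_eq_mul, add_zero]
            field_simp
          · simp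
        rwa [e] at h5
      have hninj : ¬ Function.Injective φ := fun h => hne ⟨hRtop, h⟩
      -- a nonzero element of the kernel
      obtain ⟨z, hz0, hzφ⟩ : ∃ z : R, z ≠ 0 ∧ φ z = 0 := by
        by_contra hcon
        push Not at hcon
        apply hninj
        intro p q hpq
        by_contra hpq'
        exact hcon (p - q) (sub_ne_zero.mpr hpq') (by rw [map_sub, hpq, sub_self])
      -- hence `φ (0, d) = 0` for some `d ≠ 0`
      obtain ⟨d, hd0, hd⟩ : ∃ d : k, d ≠ 0 ∧ ∀ h : ((0, d) : k × k) ∈ R, φ ⟨(0, d), h⟩ = 0 := by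
        by_cases hz1 : (z : k × k).1 = 0
        · refine ⟨(z : k × k).2, ?_, ?_⟩
          · intro h
            apply hz0
            apply Subtype.ext
            ext
            · exact hz1
            · exact h
          · intro h
            have e : (⟨(0, (z : k × k).2), h⟩ : R) = z := by
              apply Subtype.ext
              ext
              · exact hz1.symm
              · rfl
            rw [e, hzφ]
        · refine ⟨(z : k × k).1 * (z : k × k).1, mul_ne_zero hz1 hz1, ?_⟩
          intro h
          have h6 := hφ 2 ⟨Sig.mul, rfl⟩ (fun _ => z)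
          have e : (⟨reduct base (alg c) 2 ⟨Sig.mul, rfl⟩ (fun _ => (z : k × k)),
              hR 2 ⟨Sig.mul, rfl⟩ _ (fun _ => z.2)⟩ : R) =
              ⟨(0, (z : k × k).1 * (z : k × k).1), h⟩ := by
            apply Subtype.ext
            change alg c 2 Sig.mul _ = _
            rw [alg_mul]
          rw [e] at h6
          rw [h6]
          simp only [hzφ]
          exact (b 2 _).map_coord_zero (m := fun _ => (0 : B)) (0 : Fin 2) rfl
      have hmem : ∀ e : k, ((0, e) : k × k) ∈ R := fun e => hclosed y hy hy1 e
      have hall0 : ∀ e : k, φ ⟨(0, e), hmem e⟩ = 0 := by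
        intro e
        have e1 : (⟨(0, e), hmem e⟩ : R) = (e / d) • ⟨(0, d), hmem d⟩ := by
          apply Subtype.ext
          change ((0, e) : k × k) = (e / d) • (0, d)
          ext
          · simp
          · simp only [Prod.smul_snd, smul_eq_mul]
            field_simp
        rw [e1, map_smul, hd, smul_zero]
      have e : (⟨reduct base (alg c) 2 ⟨Sig.mul, rfl⟩
          (fun i => ((x (v i.val) : R) : k × k)), hR 2 ⟨Sig.mul, rfl⟩ _
          (fun i => (x (v i.val)).2)⟩ : R) =
          ⟨(0, ((x (v 0) : R) : k × k).1 * ((x (v 1) : R) : k × k).1), hmem _⟩ := by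
        apply Subtype.ext
        change alg c 2 Sig.mul _ = _
        rw [alg_mul]
        rfl
      rw [e, hall0]
  · intro h
    have := h (fun _ => (1, 0))
    simp only [Finsupp.sum_single_index, zero_smul, one_smul, m01, Mon.eval] at this
    change alg c 2 Sig.mul _ = 0 at this
    rw [alg_mul] at this
    simp at this

theorem not_isomorphic {c : k} (hc : ¬ IsSquare c) : ¬ Isomorphic (alg (1 : k)) (alg c) := by
  rintro ⟨φ, hφ⟩
  have h1 := hφ 2 Sig.mul (fun _ => (1, 0))
  have h2 := hφ 4 Sig.quad (fun _ => (1, 0))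
  rw [alg_mul, alg_mul] at h1
  rw [alg_quad, alg_quad] at h2
  simp only [mul_one, Finset.prod_const_one] at h1 h2
  rw [h1] at h2
  have h3 := congrArg Prod.snd h2
  simp only [Finset.prod_const, Finset.card_univ, Fintype.card_fin] at h3
  set a := (φ (1, 0)).1 with ha
  have ha0 : a ≠ 0 := by
    intro h
    rw [h] at h1
    have : φ (0, 1) = 0 := by
      rw [h1]
      simp
    have := (map_eq_zero_iff φ φ.injective).mp this
    simp at this
  apply hc
  refine ⟨a⁻¹, ?_⟩
  field_simp
  have h4 : a ^ 2 * (c * a ^ 2 - 1) = 0 := by linear_combination -h3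
  rcases mul_eq_zero.mp h4 with h | h
  · exact absurd (pow_eq_zero_iff two_ne_zero |>.mp h) ha0
  · linear_combination h

end Example

/-- Over every field `k` with more than three elements in which some element is not a square
(for instance `ℚ`, `ℝ`, and every finite field of odd order at least `5`) there are signatures
`Ω ⊆ Ω'` with `Ω_n ≠ ∅` for some `n ≥ 2`, and two-dimensional `Ω'`-algebras `A`, `B` over `k`,
whose `Ω`-reducts are isomorphic and critical and which have the same `Ω'`-identities, but which
are not isomorphic as `Ω'`-algebras. -/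
theorem result (k : Type) [Field k] (hk : 3 < ENat.card k) (hsq : ∃ c : k, ¬ IsSquare c) :
    ∃ (Ω' : ℕ → Type) (Ω : ∀ n, Set (Ω' n)) (A B : Type) (_ : AddCommGroup A) (_ : Module k A)
      (_ : AddCommGroup B) (_ : Module k B) (a : OmegaAlg k Ω' A) (b : OmegaAlg k Ω' B),
      (∃ n, 2 ≤ n ∧ (Ω n).Nonempty) ∧
      Module.finrank k A = 2 ∧ Module.finrank k B = 2 ∧
      Isomorphic (reduct Ω a) (reduct Ω b) ∧
      IsCritical (reduct Ω a) ∧ IsCritical (reduct Ω b) ∧
      Identities a = Identities b ∧
      ¬ Isomorphic a b := by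
  obtain ⟨c, hc⟩ := hsq
  have hc0 : c ≠ 0 := by
    rintro rfl
    exact hc (IsSquare.zero)
  -- an element `t ≠ 0` with `t ^ 2 ≠ 1`
  obtain ⟨t, ht0, ht1⟩ : ∃ t : k, t ≠ 0 ∧ t ^ 2 ≠ 1 := by
    by_contra hcon
    push Not at hcon
    classical
    have hsub : (Set.univ : Set k) ⊆ ({0, 1, -1} : Finset k) := by
      intro t _
      by_cases h : t = 0
      · simp [h]
      · have := hcon t h
        have h' : (t - 1) * (t + 1) = 0 := by linear_combination this
        rcases mul_eq_zero.mp h' with h' | h'
        · simp [sub_eq_zero.mp h']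
        · simp [eq_neg_of_add_eq_zero_left h']
    have h1 : Set.encard (Set.univ : Set k) ≤ 3 := by
      calc Set.encard (Set.univ : Set k) ≤ Set.encard (({0, 1, -1} : Finset k) : Set k) :=
            Set.encard_le_encard hsub
        _ = (({0, 1, -1} : Finset k).card : ℕ∞) := Set.encard_coe_eq_coe_finsetCard _
        _ ≤ 3 := by
            have : ({0, 1, -1} : Finset k).card ≤ 3 := Finset.card_le_three
            exact_mod_cast this
    rw [Set.encard_univ] at h1
    exact absurd hk (not_lt.mpr h1)
  refine ⟨Sig, base, k × k, k × k, inferInstance, inferInstance, inferInstance, inferInstance,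
    alg 1, alg c, ⟨2, le_refl _, ⟨Sig.mul, rfl⟩⟩, by simp, by simp, ?_, critical 1, critical c,
    ?_, not_isomorphic hc⟩
  · refine ⟨LinearEquiv.refl k _, ?_⟩
    rintro n ⟨s, hs⟩ x
    have hs' : n = 2 := hs
    subst hs'
    cases s
    rfl
  · ext f
    rw [mem_identities_iff' ht0 ht1 one_ne_zero, mem_identities_iff' ht0 ht1 hc0]

end Pool.Agent.Results.MP_3dda3d_al.CriticalReducts
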